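import Pool.Agent.K3h78.PN.Stm

/-!
# Project PN, brick VAN (adapted from `Pool.Agent.K3h85.BS.Main`)
-/

set_option autoImplicit false
set_option linter.unusedSectionVars false
set_option maxHeartbeats 400000

open CategoryTheory

namespace Pool.Agent.K3h76.PN

open Pool.Agent.K3h78.RN Pool.Agent.K3h85.BS

/-- A countable field of characteristic zero can be embedded in an uncountable algebraically closed
field of characteristic zero. -/
lemma exists_embedding (Ω : Type) [Field Ω] [CharZero Ω] [IsAlgClosed Ω]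
    (hΩ : Cardinal.aleph0 < Cardinal.mk Ω) (K : Type) [Field K] [CharZero K]
    (hK : Cardinal.mk K ≤ Cardinal.aleph0) : Nonempty (K →+* Ω) := by
  obtain ⟨s, hs⟩ := exists_isTranscendenceBasis ℚ K
  obtain ⟨t, ht⟩ := exists_isTranscendenceBasis ℚ Ω
  have h1 : Cardinal.mk Ω = Cardinal.mk t :=
    IsAlgClosed.cardinal_eq_cardinal_transcendence_basis_of_aleph0_lt' _ ht
      (le_of_eq Cardinal.mkRat) hΩ
  obtain ⟨i⟩ : Nonempty (s ↪ t) := by
    rw [← Cardinal.le_def, ← h1]
    exact ((Cardinal.mk_set_le s).trans hK).trans hΩ.le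
  have hy : AlgebraicIndependent ℚ (fun a : s => ((i a : t) : Ω)) := ht.1.comp _ i.injective
  let φ : Algebra.adjoin ℚ (Set.range ((↑) : s → K)) →ₐ[ℚ] Ω :=
    (MvPolynomial.aeval (R := ℚ) (fun a : s => ((i a : t) : Ω))).comp
      (hs.1.aevalEquiv.symm : _ →ₐ[ℚ] MvPolynomial s ℚ)
  let _ : Algebra (Algebra.adjoin ℚ (Set.range ((↑) : s → K))) Ω := φ.toRingHom.toAlgebra
  have h3 : Function.Injective φ := by
    intro a b hab
    exact hs.1.aevalEquiv.symm.injective (hy hab)
  have h4 : FaithfulSMul (Algebra.adjoin ℚ (Set.range ((↑) : s → K))) Ω :=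
    (faithfulSMul_iff_algebraMap_injective _ _).2 h3
  have h5 : Algebra.IsAlgebraic (Algebra.adjoin ℚ (Set.range ((↑) : s → K))) K := hs.isAlgebraic
  exact ⟨((IsAlgClosed.lift (R := Algebra.adjoin ℚ (Set.range ((↑) : s → K))) (S := K)
    (M := Ω)) : K →+* Ω)⟩

theorem t_VAN : Pool.Agent.K3h78.PN.S_VAN := by
  intro F hF htr Ω _ _ _ hΩ h0 E _ _
  refine subsingleton_of_forall_eq 0 fun α => ?_
  obtain ⟨A, a, hA, rfl⟩ := (hF ℚ E).exists_rep α
  let E₁ := FractionRing A
  have hc : CharZero E₁ := charZero_of_injective_algebraMap (IsFractionRing.injective A E₁)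
  let K₁ := AlgebraicClosure E₁
  have hc1 : CharZero K₁ := charZero_of_injective_algebraMap (algebraMap E₁ K₁).injective
  have hcard : Cardinal.mk K₁ ≤ Cardinal.aleph0 := by
    refine (Algebra.IsAlgebraic.cardinalMk_le_max E₁ K₁).trans (max_le ?_ le_rfl)
    rw [Cardinal.mk_fractionRing]
    obtain ⟨g, hg⟩ := hA
    rw [← hg]
    refine (Algebra.cardinalMk_adjoin_le ℚ (g : Set E)).trans (max_le (max_le ?_ ?_) le_rfl)
    · exact le_of_eq Cardinal.mkRat
    · exact (Cardinal.lt_aleph0_of_finite _).le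
  obtain ⟨i⟩ := exists_embedding Ω hΩ K₁ hcard
  let _ : Algebra K₁ Ω := i.toAlgebra
  have h1 : Function.Injective (mr F (algebraMap K₁ Ω)) :=
    injective_of_isFinitary (hF K₁ Ω)
  have h2 : Subsingleton (ov F K₁) := h1.subsingleton
  have h3 : Subsingleton (ov F E₁) := (htr E₁ K₁).subsingleton
  let j : E₁ →+* E := IsFractionRing.lift (A := A) (K := E₁) (g := A.val.toRingHom)
    Subtype.val_injective
  have h4 : j.comp (algebraMap A E₁) = (A.val : A →+* E) := by
    ext z
    exact IsFractionRing.lift_algebraMap (g := A.val.toRingHom) Subtype.val_injective z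
  have h5 : mr F (A.val : A →+* E) a = 0 := by
    rw [← h4, mr_comp, Subsingleton.elim (mr F (algebraMap A E₁) a) 0, map_zero]
  exact h5

end Pool.Agent.K3h76.PN
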